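import Mathlib

/-!
# A mixed cubic sum of the entries of Shapiro's Catalan triangle

For all `n, m ≥ 1`, with `r = min n m` and `s = max n m`, the sum of `B(n,k)² B(m,k)` over
`1 ≤ k ≤ r` has the closed form in the question.

Proof. With `S(m) = ∑ k³ C(2n,n+k)² C(2m,m+k)` one has a first order recurrence in `m`, which
comes from a telescoping identity in `k` (`step`); this gives the closed form with the sum
`E(m) = ∑_{j<m} C(n+j,n) C(n+j,n-1)`. For `m ≥ n` a second telescoping identity (`Qstep`) rewrites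
`E(m)` as a multiple of `∑_{j<n} C(m+j,m) C(n+j,n-1)`.
-/

set_option autoImplicit false

namespace Pool.Agent.Results.MP_651eca_nt.MixedCubicSum

open Finset

/-- The entry `B(n,k) = (k / n) * C(2n, n - k)` of Shapiro's Catalan triangle, `1 ≤ k ≤ n`. -/
def B (n k : ℕ) : ℚ := (k : ℚ) / n * ((2 * n).choose (n - k) : ℚ)

/-- `k³ C(2n,n+k)² C(2m,m+k)` -/
def g (n m k : ℕ) : ℚ :=
  (k : ℚ) ^ 3 * ((2 * n).choose (n + k) : ℚ) ^ 2 * ((2 * m).choose (m + k) : ℚ)

/-- the sum of `g` -/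
def S (n m : ℕ) : ℚ := ∑ k ∈ range (n + 1), g n m k

/-- `E(m) = ∑_{j<m} C(n+j,n) C(n+j,n-1)` -/
def E (n m : ℕ) : ℚ := ∑ j ∈ range m, ((n + j).choose n : ℚ) * ((n + j).choose (n - 1) : ℚ)

/-- `Q(m) = ∑_{j<n} C(m+j,m) C(n+j,n-1)` -/
def Q (n m : ℕ) : ℚ := ∑ j ∈ range n, ((m + j).choose m : ℚ) * ((n + j).choose (n - 1) : ℚ)

lemma central_shift (M k : ℕ) :
    ((M : ℚ) + k + 1) * ((2 * M).choose (M + k + 1) : ℚ) =
      ((M : ℚ) - k) * ((2 * M).choose (M + k) : ℚ) := by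
  rcases le_or_gt k M with h | h
  · have h1 := Nat.choose_succ_right_eq (2 * M) (M + k)
    have h2 : 2 * M - (M + k) = M - k := by omega
    rw [h2] at h1
    have h3 : ((2 * M).choose (M + k + 1) : ℚ) * ((M : ℚ) + k + 1) =
        ((2 * M).choose (M + k) : ℚ) * ((M : ℚ) - k) := by
      rw [← Nat.cast_sub h]
      exact_mod_cast h1
    linarith
  · rw [Nat.choose_eq_zero_of_lt (by omega : 2 * M < M + k + 1),
      Nat.choose_eq_zero_of_lt (by omega : 2 * M < M + k)]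
    simp

/-- `C(2m+2, m+1+k) ((m+1)² - k²) = (2m+2)(2m+1) C(2m, m+k)` -/
lemma central_raise (m k : ℕ) :
    ((2 * (m + 1)).choose (m + 1 + k) : ℚ) * (((m : ℚ) + 1) ^ 2 - (k : ℚ) ^ 2) =
      (2 * m + 2) * (2 * m + 1) * ((2 * m).choose (m + k) : ℚ) := by
  rcases lt_trichotomy k (m + 1) with h | h | h
  · -- `k ≤ m`
    have hk : k ≤ m := by omega
    have e1 := Nat.add_one_mul_choose_eq (2 * m + 1) (m + k)
    have e2 := Nat.add_one_mul_choose_eq (2 * m) (m + k)
    -- C(2m+1, m+k) * (m+1-k) = (2m+1) C(2m, m+k)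
    have e3 : ((2 * m + 1).choose (m + k) : ℚ) * ((m : ℚ) + 1 - k) =
        (2 * m + 1) * ((2 * m).choose (m + k) : ℚ) := by
      have e4 := Nat.choose_mul_succ_eq (2 * m) (m + k)
      have e5 : 2 * m + 1 - (m + k) = m + 1 - k := by omega
      rw [e5] at e4
      have e6 : ((2 * m).choose (m + k) : ℚ) * (2 * m + 1) =
          ((2 * m + 1).choose (m + k) : ℚ) * ((m + 1 - k : ℕ) : ℚ) := by exact_mod_cast e4
      rw [Nat.cast_sub (by omega)] at e6
      push_cast at e6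
      linarith
    have e7 : ((2 * m + 1 + 1 : ℕ) : ℚ) * ((2 * m + 1).choose (m + k) : ℚ) =
        ((2 * m + 1 + 1).choose (m + k + 1) : ℚ) * ((m + k + 1 : ℕ) : ℚ) := by exact_mod_cast e1
    have e8 : 2 * (m + 1) = 2 * m + 1 + 1 := by ring
    have e9 : m + 1 + k = m + k + 1 := by ring
    rw [e8, e9]
    push_cast at e7
    have e10 : (((m : ℚ) + 1) ^ 2 - (k : ℚ) ^ 2) = ((m : ℚ) + k + 1) * ((m : ℚ) + 1 - k) := by ring
    rw [e10, ← mul_assoc, ← e7]
    have e11 : (2 * (m : ℚ) + 1 + 1) * ((2 * m + 1).choose (m + k) : ℚ) * ((m : ℚ) + 1 - k) =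
      (2 * (m : ℚ) + 1 + 1) * (((2 * m + 1).choose (m + k) : ℚ) * ((m : ℚ) + 1 - k)) := by ring
    rw [e11, e3]
    ring
  · subst h
    rw [Nat.choose_eq_zero_of_lt (by omega : 2 * m < m + (m + 1))]
    push_cast
    ring
  · rw [Nat.choose_eq_zero_of_lt (by omega : 2 * m < m + k),
      Nat.choose_eq_zero_of_lt (by omega : 2 * (m + 1) < m + 1 + k)]
    simp

/-- the polynomial part of the certificate, multiplied by `2 (2 M + n)` -/
def q (n M k : ℚ) : ℚ := -(n * M) - (2 * M + n) * (k * (k - 1))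

/-- the certificate -/
def H (n m k : ℕ) : ℚ :=
  ((n : ℚ) + k) ^ 2 * ((m : ℚ) + 1 + k) * q n (m + 1) k *
    (((2 * n).choose (n + k) : ℚ) ^ 2 * ((2 * (m + 1)).choose (m + 1 + k) : ℚ))

lemma Hsucc (n m k : ℕ) : H n m (k + 1) =
    ((n : ℚ) - k) ^ 2 * ((m : ℚ) + 1 - k) * q n (m + 1) (k + 1) *
    (((2 * n).choose (n + k) : ℚ) ^ 2 * ((2 * (m + 1)).choose (m + 1 + k) : ℚ)) := by
  have h1 := central_shift n k
  have h2 := central_shift (m + 1) k
  unfold H
  have e1 : n + (k + 1) = n + k + 1 := by ring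
  have e2 : m + 1 + (k + 1) = m + 1 + k + 1 := by ring
  rw [e1, e2]
  push_cast at h1 h2 ⊢
  have h3 : ((n : ℚ) + k + 1) ^ 2 * ((2 * n).choose (n + k + 1) : ℚ) ^ 2 =
      ((n : ℚ) - k) ^ 2 * ((2 * n).choose (n + k) : ℚ) ^ 2 := by
    rw [← mul_pow, h1, mul_pow]
  calc ((n : ℚ) + (k + 1)) ^ 2 * ((m : ℚ) + 1 + (k + 1)) * q n (m + 1) (k + 1) *
        (((2 * n).choose (n + k + 1) : ℚ) ^ 2 * ((2 * (m + 1)).choose (m + 1 + k + 1) : ℚ))
      = (((n : ℚ) + k + 1) ^ 2 * ((2 * n).choose (n + k + 1) : ℚ) ^ 2) *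
        (((m : ℚ) + 1 + k + 1) * ((2 * (m + 1)).choose (m + 1 + k + 1) : ℚ)) *
          q n (m + 1) (k + 1) := by ring
    _ = _ := by rw [h3, h2]; ring

/-- the telescoping identity -/
lemma tele (n m k : ℕ) :
    2 * ((n : ℚ) + m + 1) ^ 2 * (n + 2 * m) * g n (m + 1) k -
      2 * (2 * (m + 1) + n) * ((2 * m + 2) * (2 * m + 1)) * g n m k = H n m (k + 1) - H n m k := by
  rw [Hsucc]
  have h1 := central_raise m k
  have h2 : 2 * (2 * ((m : ℚ) + 1) + n) * ((2 * m + 2) * (2 * m + 1)) * g n m k =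
      2 * (2 * ((m : ℚ) + 1) + n) * ((k : ℚ) ^ 3 * ((2 * n).choose (n + k) : ℚ) ^ 2) *
        ((2 * m + 2) * (2 * m + 1) * ((2 * m).choose (m + k) : ℚ)) := by
    unfold g; ring
  rw [h2, ← h1]
  unfold g H q
  ring

lemma step (n m : ℕ) :
    2 * ((n : ℚ) + m + 1) ^ 2 * (n + 2 * m) * S n (m + 1) -
      2 * (2 * (m + 1) + n) * ((2 * m + 2) * (2 * m + 1)) * S n m =
    (n : ℚ) ^ 3 * (m + 1) ^ 2 *
      (((2 * n).choose n : ℚ) ^ 2 * ((2 * (m + 1)).choose (m + 1) : ℚ)) := by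
  unfold S
  rw [mul_sum, mul_sum, ← sum_sub_distrib, sum_congr rfl (fun k _ => tele n m k),
    sum_range_sub]
  have h1 : H n m (n + 1) = 0 := by
    rw [Hsucc]; ring
  rw [h1]
  unfold H q
  push_cast
  simp only [add_zero]
  ring

lemma central_raise0 (m : ℕ) :
    ((2 * (m + 1)).choose (m + 1) : ℚ) * ((m : ℚ) + 1) ^ 2 =
      (2 * m + 2) * (2 * m + 1) * ((2 * m).choose m : ℚ) := by
  have := central_raise m 0
  simpa using this

lemma choose_up (n m : ℕ) :
    ((n + (m + 1)).choose n : ℚ) * (m + 1) = ((n + m).choose n : ℚ) * (n + m + 1) := by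
  have e4 := Nat.choose_mul_succ_eq (n + m) n
  have e5 : n + m + 1 - n = m + 1 := by omega
  rw [e5] at e4
  have e6 : ((n + m).choose n : ℚ) * (n + m + 1) = ((n + m + 1).choose n : ℚ) * (m + 1) := by
    exact_mod_cast e4
  rw [e6]
  rfl

lemma choose_pred (n m : ℕ) (hn : 1 ≤ n) :
    ((n + m).choose (n - 1) : ℚ) * (m + 1) = ((n + m).choose n : ℚ) * n := by
  have e1 := Nat.choose_succ_right_eq (n + m) (n - 1)
  have e2 : n - 1 + 1 = n := by omega
  have e3 : n + m - (n - 1) = m + 1 := by omega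
  rw [e2, e3] at e1
  exact_mod_cast e1.symm

/-- the closed form with `E` -/
lemma closed (n : ℕ) (hn : 1 ≤ n) (m : ℕ) :
    S n m = 1 / 2 * (n : ℚ) ^ 2 * ((2 * n).choose n : ℚ) ^ 2 * ((2 * m).choose m : ℚ) *
      (m - (n + 2 * m) * E n m / ((n + m).choose n : ℚ) ^ 2) := by
  induction m with
  | zero =>
    have : S n 0 = 0 := by
      unfold S
      apply sum_eq_zero
      intro k _
      unfold g
      rcases Nat.eq_zero_or_pos k with h | h
      · subst h; simp
      · rw [Nat.choose_eq_zero_of_lt (by omega : 2 * 0 < 0 + k)]; simp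
    rw [this]
    simp [E]
  | succ m ih =>
    have hst := step n m
    rw [ih] at hst
    have hE : E n (m + 1) = E n m + ((n + m).choose n : ℚ) * ((n + m).choose (n - 1) : ℚ) := by
      unfold E; rw [sum_range_succ]
    have hc0 : ((n + m).choose n : ℚ) ≠ 0 := by
      have := Nat.choose_pos (show n ≤ n + m by omega)
      positivity
    have hn0 : (0 : ℚ) < n := by exact_mod_cast hn
    have hm0 : (0 : ℚ) ≤ m := by positivity
    have hm1 : ((m : ℚ) + 1) ≠ 0 := by positivity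
    have hup : ((n + (m + 1)).choose n : ℚ) =
        ((n + m).choose n : ℚ) * (n + m + 1) / (m + 1) := by
      rw [eq_div_iff hm1]; exact choose_up n m
    have hpr : ((n + m).choose (n - 1) : ℚ) = ((n + m).choose n : ℚ) * n / (m + 1) := by
      rw [eq_div_iff hm1]; exact choose_pred n m hn
    have hcr : ((2 * m).choose m : ℚ) =
        ((2 * (m + 1)).choose (m + 1) : ℚ) * ((m : ℚ) + 1) ^ 2 / ((2 * m + 2) * (2 * m + 1)) := by
      rw [eq_div_iff (by positivity)]
      rw [central_raise0]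
      ring
    have hpos : 2 * ((n : ℚ) + m + 1) ^ 2 * (n + 2 * m) ≠ 0 := by positivity
    have hS : S n (m + 1) = ((n : ℚ) ^ 3 * (m + 1) ^ 2 *
      (((2 * n).choose n : ℚ) ^ 2 * ((2 * (m + 1)).choose (m + 1) : ℚ)) +
        2 * (2 * (m + 1) + n) * ((2 * m + 2) * (2 * m + 1)) *
        (1 / 2 * (n : ℚ) ^ 2 * ((2 * n).choose n : ℚ) ^ 2 * ((2 * m).choose m : ℚ) *
      (m - (n + 2 * m) * E n m / ((n + m).choose n : ℚ) ^ 2))) /
        (2 * ((n : ℚ) + m + 1) ^ 2 * (n + 2 * m)) := by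
      rw [eq_div_iff hpos]
      linear_combination hst
    rw [hS, hE, hup, hcr, hpr]
    have hx : (n : ℚ) + m + 1 ≠ 0 := by positivity
    have hy : (n : ℚ) + 2 * m ≠ 0 := by positivity
    have hz : (2 * (m : ℚ) + 2) ≠ 0 := by positivity
    have hw : (2 * (m : ℚ) + 1) ≠ 0 := by positivity
    push_cast
    field_simp
    ring

lemma Qtele (n m j : ℕ) (hn : 1 ≤ n) :
    (m + 1 : ℚ) * ((n + m + 1) * (((m + 1 + j).choose (m + 1) : ℚ) *
        ((n + j).choose (n - 1) : ℚ)) -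
      m * (((m + j).choose m : ℚ) * ((n + j).choose (n - 1) : ℚ))) =
    (((j + 1 : ℕ) : ℚ) * ((j + 1 : ℕ) + 1)) * (((m + (j + 1)).choose m : ℚ) *
        ((n + (j + 1)).choose (n - 1) : ℚ)) -
      ((j : ℚ) * (j + 1)) * (((m + j).choose m : ℚ) * ((n + j).choose (n - 1) : ℚ)) := by
  have h1 := choose_up m j
  -- C(m+1+j, m+1) (m+1) = C(m+j,m) (m+1+j)
  have h2 : ((m + 1 + j).choose (m + 1) : ℚ) * (m + 1) = ((m + j).choose m : ℚ) * (m + j + 1) := by
    have e1 := Nat.add_one_mul_choose_eq (m + j) m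
    have e2 : m + 1 + j = m + j + 1 := by ring
    rw [e2]
    have e3 : ((m + j + 1 : ℕ) : ℚ) * ((m + j).choose m : ℚ) =
        ((m + j + 1).choose (m + 1) : ℚ) * ((m + 1 : ℕ) : ℚ) := by exact_mod_cast e1
    push_cast at e3
    linarith
  -- C(n+j+1, n-1) (j+2) = C(n+j, n-1) (n+j+1)
  have h3 : ((n + (j + 1)).choose (n - 1) : ℚ) * (j + 2) =
      ((n + j).choose (n - 1) : ℚ) * (n + j + 1) := by
    have e4 := Nat.choose_mul_succ_eq (n + j) (n - 1)
    have e5 : n + j + 1 - (n - 1) = j + 2 := by omega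
    rw [e5] at e4
    exact_mod_cast e4.symm
  push_cast
  have e1 : ((j : ℚ) + 1) * ((j : ℚ) + 1 + 1) * (((m + (j + 1)).choose m : ℚ) *
        ((n + (j + 1)).choose (n - 1) : ℚ)) =
      (((m + (j + 1)).choose m : ℚ) * (j + 1)) * (((n + (j + 1)).choose (n - 1) : ℚ) * (j + 2)) := by
    ring
  rw [e1, h1, h3]
  have e2 : (m + 1 : ℚ) * ((n + m + 1) * (((m + 1 + j).choose (m + 1) : ℚ) *
        ((n + j).choose (n - 1) : ℚ)) -
      m * (((m + j).choose m : ℚ) * ((n + j).choose (n - 1) : ℚ))) =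
      (n + m + 1) * (((m + 1 + j).choose (m + 1) : ℚ) * (m + 1)) *
        ((n + j).choose (n - 1) : ℚ) -
      (m + 1) * m * (((m + j).choose m : ℚ) * ((n + j).choose (n - 1) : ℚ)) := by ring
  rw [e2, h2]
  ring

lemma Qstep (n m : ℕ) (hn : 1 ≤ n) :
    (m + 1 : ℚ) * ((n + m + 1) * Q n (m + 1) - m * Q n m) =
      ((n : ℚ) * (n + 1)) * (((m + n).choose m : ℚ) * ((n + n).choose (n - 1) : ℚ)) := by
  unfold Q
  rw [mul_sum, mul_sum, ← sum_sub_distrib, mul_sum, sum_congr rfl (fun j _ => Qtele n m j hn),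
    sum_range_sub (fun j : ℕ => ((j : ℚ) * (j + 1)) * (((m + j).choose m : ℚ) *
      ((n + j).choose (n - 1) : ℚ)))]
  simp

/-- for `m ≥ n`: `n C(2n,n) E(m) = m C(n+m,n) Q(m)` -/
lemma E_eq (n : ℕ) (hn : 1 ≤ n) (d : ℕ) :
    (n : ℚ) * ((2 * n).choose n : ℚ) * E n (n + d) =
      ((n + d : ℕ) : ℚ) * ((n + (n + d)).choose n : ℚ) * Q n (n + d) := by
  induction d with
  | zero =>
    simp only [add_zero]
    have : E n n = Q n n := rfl
    rw [this, two_mul]
  | succ d ih =>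
    set m := n + d with hm
    have e0 : n + (d + 1) = m + 1 := by omega
    rw [e0]
    have hE : E n (m + 1) = E n m + ((n + m).choose n : ℚ) * ((n + m).choose (n - 1) : ℚ) := by
      unfold E; rw [sum_range_succ]
    have hq := Qstep n m hn
    have hup := choose_up n m
    have hpr := choose_pred n m hn
    have hpr2 := choose_pred n n hn
    have hm1 : ((m : ℚ) + 1) ≠ 0 := by positivity
    have hsym : ((m + n).choose m : ℚ) = ((n + m).choose n : ℚ) := by
      rw [Nat.add_comm m n, Nat.choose_symm_add]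
    rw [hsym] at hq
    rw [hE, mul_add, ih]
    push_cast
    have h2n : (2 * n).choose n = (n + n).choose n := by rw [two_mul]
    rw [h2n]
    -- multiply by `m + 1`
    apply mul_right_cancel₀ hm1
    have a1 : ((m : ℚ) * ((n + m).choose n : ℚ) * Q n m + (n : ℚ) * ((n + n).choose n : ℚ) *
        (((n + m).choose n : ℚ) * ((n + m).choose (n - 1) : ℚ))) * (m + 1) =
        (m : ℚ) * (m + 1) * ((n + m).choose n : ℚ) * Q n m +
        ((n + m).choose n : ℚ) * (n : ℚ) * ((n + n).choose n : ℚ) *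
          (((n + m).choose (n - 1) : ℚ) * (m + 1)) := by ring
    have a2 : ((m : ℚ) + 1) * ((n + (m + 1)).choose n : ℚ) * Q n (m + 1) * (m + 1) =
        (((n + (m + 1)).choose n : ℚ) * (m + 1)) * ((m + 1) * Q n (m + 1)) := by ring
    rw [a1, a2, hup, hpr]
    have a3 : ((n + m).choose n : ℚ) * (n + m + 1) * ((m + 1) * Q n (m + 1)) =
        ((n + m).choose n : ℚ) * ((m + 1 : ℚ) * ((n + m + 1) * Q n (m + 1) - m * Q n m)) +
        (m : ℚ) * (m + 1) * ((n + m).choose n : ℚ) * Q n m := by ring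
    rw [a3, hq]
    have a4 : ((n : ℚ) * (n + 1)) * (((n + m).choose n : ℚ) * ((n + n).choose (n - 1) : ℚ)) =
      (n : ℚ) * ((n + m).choose n : ℚ) * (((n + n).choose (n - 1) : ℚ) * (n + 1)) := by ring
    rw [a4, hpr2]
    ring

lemma sum_eq (n m : ℕ) (hn : 1 ≤ n) (hm : 1 ≤ m) :
    ∑ k ∈ Icc 1 (min n m), B n k ^ 2 * B m k = S n m / ((n : ℚ) ^ 2 * m) := by
  have hn0 : (n : ℚ) ≠ 0 := by positivity
  have hm0 : (m : ℚ) ≠ 0 := by positivity
  rw [eq_div_iff (by positivity), sum_mul]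
  unfold S
  symm
  have hsub : Icc 1 (min n m) ⊆ range (n + 1) := by
    intro k hk
    rw [mem_Icc] at hk
    rw [mem_range]
    have := min_le_left n m
    omega
  rw [← sum_subset hsub]
  · apply sum_congr rfl
    intro k hk
    rw [mem_Icc] at hk
    have h1 : k ≤ n := hk.2.trans (min_le_left _ _)
    have h2 : k ≤ m := hk.2.trans (min_le_right _ _)
    unfold g B
    have e1 : (2 * n).choose (n - k) = (2 * n).choose (n + k) := by
      rw [← Nat.choose_symm (by omega : n + k ≤ 2 * n)]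
      congr 1
      omega
    have e2 : (2 * m).choose (m - k) = (2 * m).choose (m + k) := by
      rw [← Nat.choose_symm (by omega : m + k ≤ 2 * m)]
      congr 1
      omega
    rw [e1, e2]
    field_simp
  · intro k hk1 hk2
    rw [mem_range] at hk1
    rw [mem_Icc] at hk2
    unfold g
    rcases Nat.eq_zero_or_pos k with h | h
    · subst h; simp
    · have : m < k := by
        by_contra hcon
        apply hk2
        refine ⟨h, le_min (by omega) (by omega)⟩
      rw [Nat.choose_eq_zero_of_lt (by omega : 2 * m < m + k)]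
      simp

/-- **The mixed cubic sum.** For all `n, m ≥ 1`, with `r = min n m` and `s = max n m`,
`∑_{k=1}^{r} B(n,k)² B(m,k)` equals
`(1/2) C(2n,n)² C(2m,m) [1 - ((n+2m)/r) C(n+m,n)⁻¹ C(n+r,n)⁻¹ ∑_{j<r} C(s+j,s) C(n+j,n-1)]`. -/
theorem result (n m : ℕ) (hn : 1 ≤ n) (hm : 1 ≤ m) :
    ∑ k ∈ Icc 1 (min n m), B n k ^ 2 * B m k =
      1 / 2 * ((2 * n).choose n : ℚ) ^ 2 * ((2 * m).choose m : ℚ) *
        (1 - ((n : ℚ) + 2 * m) / ((min n m : ℕ) : ℚ) * ((n + m).choose n : ℚ)⁻¹ *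
          ((n + min n m).choose n : ℚ)⁻¹ *
          ∑ j ∈ range (min n m), ((max n m + j).choose (max n m) : ℚ) *
            ((n + j).choose (n - 1) : ℚ)) := by
  rw [sum_eq n m hn hm, closed n hn m]
  have hn0 : (n : ℚ) ≠ 0 := by positivity
  have hm0 : (m : ℚ) ≠ 0 := by positivity
  have hc0 : ((n + m).choose n : ℚ) ≠ 0 := by
    have := Nat.choose_pos (show n ≤ n + m by omega)
    positivity
  rcases le_total m n with h | h
  · rw [min_eq_right h, max_eq_left h]
    change _ = 1 / 2 * ((2 * n).choose n : ℚ) ^ 2 * ((2 * m).choose m : ℚ) *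
        (1 - ((n : ℚ) + 2 * m) / ((m : ℕ) : ℚ) * ((n + m).choose n : ℚ)⁻¹ *
          ((n + m).choose n : ℚ)⁻¹ * E n m)
    field_simp
  · rw [min_eq_left h, max_eq_right h]
    change _ = 1 / 2 * ((2 * n).choose n : ℚ) ^ 2 * ((2 * m).choose m : ℚ) *
        (1 - ((n : ℚ) + 2 * m) / ((n : ℕ) : ℚ) * ((n + m).choose n : ℚ)⁻¹ *
          ((n + n).choose n : ℚ)⁻¹ * Q n m)
    obtain ⟨d, rfl⟩ := Nat.exists_eq_add_of_le h
    have hE := E_eq n hn d
    have h2n : (2 * n).choose n = (n + n).choose n := by rw [two_mul]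
    have hcn : ((n + n).choose n : ℚ) ≠ 0 := by
      have := Nat.choose_pos (show n ≤ n + n by omega)
      positivity
    have hE2 : E n (n + d) = ((n + d : ℕ) : ℚ) * ((n + (n + d)).choose n : ℚ) * Q n (n + d) /
        ((n : ℚ) * ((n + n).choose n : ℚ)) := by
      rw [eq_div_iff (by positivity)]
      rw [← hE, h2n]
      ring
    rw [hE2, h2n]
    field_simp

end Pool.Agent.Results.MP_651eca_nt.MixedCubicSum
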